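import Pool.Agent.MWLE.StmtsA

/-!
# Row LEV of squad MWLE (MP_23468a_al): `P0` gives the light end identity
-/

namespace Pool.Agent.MWLE.H15

open Pool.Agent.Helper14_MV Pool.Agent.Helper2_MV
open Pool.Agent.MWK (pre Gw)
open Pool.Agent.MWF (Ap gaml dbl)
open Pool.Agent.MWGN (nn Gz E0 P0 A0 Tau gh)

/-- a letter which is not the first one may be doubled -/
theorem abs1 {β : FIC} (gm : RR β [0, 1, 0] [0, 1, 0, 0]) (c : ℕ) (P Q : List ℕ) (hc : c ∈ P) :
    RR β (P ++ c :: c :: Q) (P ++ c :: Q) := by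
  obtain ⟨P1, P2, rfl⟩ := List.append_of_mem hc
  have h := RR.sub (fun i => if i = 0 then [c] else P2) gm
  simp only [List.flatMap_cons, List.flatMap_nil] at h
  have h2 := RR.append (RR.refl (β := β) P1) (RR.append h (RR.refl (β := β) Q))
  have h3 := h2.symm
  simpa using h3

theorem p0_of_k0 {β : FIC} (gm : RR β [0, 1, 0] [0, 1, 0, 0]) (h : k0 β) : P0 β := by
  have h1 := RR.sub (fun i => if i = 0 then [0, 0] else if i = 2 then [] else [i]) h
  simp only [List.flatMap_cons, List.flatMap_nil] at h1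
  have h2 : RR β [0, 0, 1, 0, 0, 3, 1] [1, 0, 0, 0, 0, 3, 1] := by simpa using h1
  have h3 : RR β [0, 2, 0, 0, 1, 0, 0, 3, 1] [0, 2, 1, 0, 0, 0, 0, 3, 1] := by
    have := RR.append (RR.refl (β := β) [0, 2]) h2
    simpa using this
  -- left side
  have a1 : RR β [0, 2, 0, 0, 1, 0, 0, 3, 1] [0, 2, 0, 1, 0, 0, 3, 1] := by
    have := abs1 gm 0 [0, 2] [1, 0, 0, 3, 1] (by simp)
    simpa using this
  have a2 : RR β [0, 2, 0, 1, 0, 0, 3, 1] [0, 2, 0, 1, 0, 3, 1] := by
    have := abs1 gm 0 [0, 2, 0, 1] [3, 1] (by simp)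
    simpa using this
  -- right side
  have b1 : RR β [0, 2, 1, 0, 0, 0, 0, 3, 1] [0, 2, 1, 0, 0, 0, 3, 1] := by
    have := abs1 gm 0 [0, 2, 1] [0, 0, 3, 1] (by simp)
    simpa using this
  have b2 : RR β [0, 2, 1, 0, 0, 0, 3, 1] [0, 2, 1, 0, 0, 3, 1] := by
    have := abs1 gm 0 [0, 2, 1] [0, 3, 1] (by simp)
    simpa using this
  have b3 : RR β [0, 2, 1, 0, 0, 3, 1] [0, 2, 1, 0, 3, 1] := by
    have := abs1 gm 0 [0, 2, 1] [3, 1] (by simp)
    simpa using this
  show RR β [0, 2, 1, 0, 3, 1] [0, 2, 0, 1, 0, 3, 1]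
  exact β.trans (β.trans (β.symm (β.trans b1 (β.trans b2 b3))) (β.symm h3)) (β.trans a1 a2)

/-- `P0` with words -/
theorem p0w {β : FIC} (h : P0 β) (X T Z S A B : List ℕ) :
    RR β (A ++ (X ++ (T ++ (Z ++ (X ++ (S ++ (Z ++ B)))))))
      (A ++ (X ++ (T ++ (X ++ (Z ++ (X ++ (S ++ (Z ++ B)))))))) := by
  have h1 := RR.sub (fun i => if i = 0 then X else if i = 1 then Z else if i = 2 then T else S) h
  simp only [List.flatMap_cons, List.flatMap_nil] at h1
  have h2 := RR.append (RR.refl (β := β) A) (RR.append h1 (RR.refl (β := β) B))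
  simpa using h2

theorem pin_mod (i : ℕ) : pin i % 5 = 2 := by unfold pin; omega
theorem con_mod (i : ℕ) : con i % 5 = 4 := by unfold con; omega

/-- the list of contents and lights, contents twice -/
def vv (m : ℕ) : List ℕ := (List.range m).flatMap (fun i => [con i, con i, pin i])

theorem dq_append (Q : ℕ → Bool) (u v : List ℕ) : dq Q (u ++ v) = dq Q u ++ dq Q v :=
  List.flatMap_append ..

theorem vv_succ (m : ℕ) : vv (m + 1) = vv m ++ [con m, con m, pin m] := by
  simp [vv, List.range_succ]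

theorem lw4_succ (L C : ℕ → ℕ) (m : ℕ) : lw4 L C (m + 1) = lw4 L C m ++ [C m, C m, C m, C m, L m] := by
  simp [lw4, List.range_succ]

/-- the lights are the letters of the class 2 -/
def QQ (c : ℕ) : Bool := decide (c % 5 = 2)

theorem QQ_pin (i : ℕ) : QQ (pin i) = true := by simp [QQ, pin_mod]
theorem QQ_con (i : ℕ) : QQ (con i) = false := by simp [QQ, con_mod]

theorem dq_vv (m : ℕ) : dq QQ (vv m) = lw4 pin con m := by
  induction m with
  | zero => rfl
  | succ m ih =>
    rw [vv_succ, dq_append, ih, lw4_succ]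
    congr 1
    simp [dq, QQ_pin, QQ_con]

theorem filter_vv (m : ℕ) : (vv m).filter QQ = (List.range m).map pin := by
  induction m with
  | zero => rfl
  | succ m ih =>
    rw [vv_succ, List.filter_append, ih, List.range_succ, List.map_append]
    congr 1
    simp [QQ_pin, QQ_con]

theorem lev_aux {β : FIC} (hP : P0 β) {m : ℕ} {τ : List ℕ} (hT : Tau τ m) (hB : BtS β m) :
    RR β (0 :: (lw4 pin con (m + 1) ++ (0 :: tll sep pin τ)))
      (0 :: 0 :: (lw4 pin con (m + 1) ++ (0 :: tll sep pin τ))) := by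
  obtain ⟨τ1, τ2, hτ⟩ := List.append_of_mem ((hT.2 m).2 (le_refl m))
  obtain ⟨T1, T2, hTT⟩ : ∃ T1 T2, tll sep pin τ = T1 ++ pin m :: T2 := by
    refine ⟨tll sep pin τ1 ++ [sep m], tll sep pin τ2, ?_⟩
    rw [hτ]
    simp [tll]
  obtain ⟨t, ht⟩ : ∃ t, t = lw4 pin con m ++ [con m, con m, con m, con m] := ⟨_, rfl⟩
  have e : lw4 pin con (m + 1) = t ++ [pin m] := by
    rw [lw4_succ, ht]
    simp
  -- step 1
  have s1 : RR β (0 :: (t ++ pin m :: 0 :: (T1 ++ pin m :: T2)))
      (0 :: (t ++ 0 :: pin m :: 0 :: (T1 ++ pin m :: T2))) := by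
    have := p0w hP [0] t [pin m] T1 [] T2
    simpa using this
  -- step 2
  have s2 : RR β (0 :: (t ++ 0 :: (pin m :: 0 :: (T1 ++ pin m :: T2))))
      (0 :: 0 :: (t ++ 0 :: (pin m :: 0 :: (T1 ++ pin m :: T2)))) := by
    have hd : dq QQ (vv m ++ [con m, con m]) = t := by
      rw [dq_append, dq_vv, ht]
      congr 1
      simp [dq, QQ_con]
    have hf : (vv m ++ [con m, con m]).filter QQ = (List.range m).map pin := by
      rw [List.filter_append, filter_vv]
      simp [QQ_con]
    have h := hB QQ [] (vv m ++ [con m, con m]) (pin m :: 0 :: (T1 ++ pin m :: T2)) 0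
      (by rw [hf]; simp)
      (by
        rw [hf]
        refine List.Nodup.map ?_ List.nodup_range
        intro a b hab
        unfold pin at hab
        omega)
      (by
        intro c hc hQ
        have h1 : c ∈ (vv m ++ [con m, con m]).filter QQ := List.mem_filter.2 ⟨hc, hQ⟩
        rw [hf, List.mem_map] at h1
        obtain ⟨i, hi, rfl⟩ := h1
        rw [List.mem_range] at hi
        have h2 : pin i ∈ tll sep pin τ := by
          unfold tll
          rw [List.mem_flatMap]
          exact ⟨i, (hT.2 i).2 (by omega), by simp⟩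
        rw [hTT] at h2
        exact List.mem_cons_of_mem _ (List.mem_cons_of_mem _ h2))
    rw [hd] at h
    simpa using h
  -- step 3
  have s3 : RR β (0 :: 0 :: (t ++ pin m :: 0 :: (T1 ++ pin m :: T2)))
      (0 :: 0 :: (t ++ 0 :: pin m :: 0 :: (T1 ++ pin m :: T2))) := by
    have := p0w hP [0] (0 :: t) [pin m] T1 [] T2
    simpa using this
  have e1 : ∀ R : List ℕ, lw4 pin con (m + 1) ++ R = t ++ pin m :: R := by
    intro R
    rw [e, List.append_assoc]
    rfl
  rw [e1, hTT]
  exact β.trans s1 (β.trans s2 (β.symm s3))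

/-- row LEV -/
theorem lev : LevStmt := by
  intro β hG m τ hT hB h
  rcases h with h | h
  · exact lev_aux h hT hB
  · exact lev_aux (p0_of_k0 hG.gw.gm h) hT hB

end Pool.Agent.MWLE.H15
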